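import Pool.Agent.KGT.YFin

/-!
# Bass's finiteness question: smooth cubics and trilinear forms, all `K'_n`
-/

set_option autoImplicit false

namespace Pool.Agent.Results.MP_e17fa799_al.CubicsAllDegrees

open Pool.Agent.KGT Pool.Agent.KGT.W

/-- `KX n X` is Quillen's group `K'_n(X)` of the scheme `X` (`π_{n+1}` of the Q-construction of the
category of coherent sheaves, here `π_{2n+3}` of a model by the iterated S-construction).
`FinType k X`: the scheme `X` is of finite type over the ring `k`. `SerreClass 𝒮`: `𝒮` is a class of
abelian groups closed under subgroups, quotients and extensions which contains `ℤ`, for instance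
the class of finitely generated groups.

Let `k = ℤ` (`m = 0`) or `k = 𝔽_p` (`m = p`), `M ≥ 0` and `d = 0, 1, …, ∞`. Let `F = ∑ t i j l xᵢ yⱼ z_l`
run through all trilinear forms over `k` of a format `(d + 2, b, c)` if `d` is finite, and through all
trilinear forms with coefficients `0` and `1`, of any format, if `d = ∞`. Let `n` run through all numbers
`n ≤ M` if `d` is finite, and let `n = M` if `d = ∞`. The following are equivalent:
1. `K'_n(X)` is in `𝒮` for all regular schemes `X` of finite type over `k` all of whose residue fields
  have transcendence degree at most `d` over their prime fields (for `k = ℤ`, `d = ∞` and the finitely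
  generated groups this is Bass's question in degree `M`);
2. `K'_n(X)` is in `𝒮` for all such schemes, regular or not (and all `n ≤ M`, also if `d = ∞`);
3. `K'_n(X)` is in `𝒮` for all closed subschemes `X` of the affine `(d + 1)`-space over `k` (of all affine
  spaces if `d = ∞`);
4. `K'_n` of all the hypersurfaces `F = 0` is in `𝒮`;
5. all the cubics `F = T² - T` are smooth over `k`, and their `K'_n` is in `𝒮`;
6. `K'_{n + 1}` of all the complements `F ≠ 0`, `F` nonzero, is in `𝒮` (and `K'_0` if `d` is finite).

For the finitely generated groups, all of this is true if `k = ℤ`, `d = 0` and if `k = 𝔽_p`, `d ≤ 1`. -/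
theorem result :
    (∀ 𝒮 : (G : Type 1) → [AddCommGroup G] → Prop, SerreClass 𝒮 → ∀ M m : ℕ, m = 0 ∨ m.Prime →
      ∀ d : ℕ∞, (Statements 𝒮 M (ZMod m) d).TFAE) ∧
    ∀ M m d : ℕ, (m = 0 ∧ d = 0) ∨ (m.Prime ∧ d ≤ 1) →
      ∀ P ∈ Statements (fun G _ => AddGroup.FG G) M (ZMod m) d, P :=
  ⟨fun _ h𝒮 M m hm d => statements_tfae h𝒮 M m hm d, fun M m d h => statements_base M m d h⟩

end Pool.Agent.Results.MP_e17fa799_al.CubicsAllDegrees
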