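import Pool.Agent.Q4.All7
import Pool.Agent.Q4.KEY
import Pool.Agent.Q4.KR
import Pool.Agent.Q4.KB
import Pool.Agent.Q4.RNQ
import Pool.Agent.Q4.PSA
import Pool.Agent.Q4.PSIM
import Pool.Agent.Q4.PS2
import Pool.Agent.Q4.PS1
import Pool.Agent.Q4.LR
import Pool.Agent.Q4.NZD
import Pool.Agent.Q4.NZa
import Pool.Agent.Q4.CONC
import Pool.Agent.Q4.SLOT
import Pool.Agent.Q4.SIMQ
import Pool.Agent.Q4.RADG
import Pool.Agent.Q4.RADM
import Pool.Agent.Q4.EVA
import Pool.Agent.Q4.EVB
import Pool.Agent.Q4.EV2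
import Pool.Agent.Q4.EV3
import Pool.Agent.Q4.EV4
import Pool.Agent.Q4.EV5
import Pool.Agent.Q4.EV6
import Pool.Agent.Q4.HYP
import Pool.Agent.Q4.HYP0
import Pool.Agent.Q4.CM2
import Pool.Agent.Q4.CS1
import Pool.Agent.Q4.RK1
import Pool.Agent.Q4.GEX
import Pool.Agent.Q4.ORL
import Pool.Agent.QTB.QORD4
import Pool.Agent.TQF.TTb
import Pool.Agent.Q4.CW7

/-!
# Finite generation of `K'₀` for intersections of quadrics over arithmetic bases
-/

namespace Pool.Agent.Results.MP_e17fa799_al.QuadricBundles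

open Pool.Agent.QCT Pool.Agent.Helper11 Pool.Agent.Helper67.Bass MvPolynomial
open Quaternion TensorProduct Function

/-- The field `K` is a rational function field `F(t)` in one variable over a subfield `F` of
Kronecker dimension at most one. -/
def RuledField (K : Type) [Field K] : Prop :=
  ∃ (F : Subfield K) (t : K), KroneckerLeOne F ∧ Transcendental F t ∧
    IntermediateField.adjoin F {t} = ⊤

/-- The `K`-algebra `E` is isomorphic to a finite extension field `L` of `K` which is a rational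
function field as in `RuledField`, or to a quaternion algebra `(a, b)` over such a field `L`, or (only
if `K` has positive characteristic) to a biquaternion algebra `(a, b) ⊗ (c, d)` over such a field `L`. -/
def Factor (K : Type) [Field K] (E : Type) [Ring E] [Algebra K E] : Prop :=
  ∃ (L : Type) (_ : Field L) (_ : Algebra K L), FiniteDimensional K L ∧ RuledField L ∧
    (Nonempty (E ≃ₐ[K] L) ∨ (∃ a b : L, a ≠ 0 ∧ b ≠ 0 ∧ Nonempty (E ≃ₐ[K] ℍ[L,a,b])) ∨
      ((∃ p : ℕ, p.Prime ∧ (p : K) = 0) ∧ ∃ a b c d : L, a ≠ 0 ∧ b ≠ 0 ∧ c ≠ 0 ∧ d ≠ 0 ∧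
        Nonempty (E ≃ₐ[K] ℍ[L,a,b] ⊗[L] ℍ[L,c,d])))

/-- The `K`-algebra `Λ` modulo a nilpotent ideal is a finite product of matrix rings over algebras as
in `Factor`. -/
def SplitAlgebra (K : Type) [Field K] (Λ : Type) [Ring Λ] [Algebra K Λ] : Prop :=
  ∃ (n : ℕ) (d : Fin n → ℕ) (E : Fin n → Type) (_ : ∀ i, Ring (E i)) (_ : ∀ i, Algebra K (E i))
    (π : Λ →ₐ[K] ∀ i, Matrix (Fin (d i)) (Fin (d i)) (E i)),
    Surjective π ∧ IsNilpotent (RingHom.ker π) ∧ ∀ i, Factor K (E i)

/-- The field `K(√δ)`, where `δ = (-1) ^ (r / 2) ∏ w_i` is the signed discriminant of the form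
`∑ w_i z_i²`, `i < r`, is a rational function field as in `RuledField`. -/
def RuledDisc (K : Type) [Field K] {r : ℕ} (w : Fin r → K) : Prop :=
  ∃ (L : Type) (_ : Field L) (_ : Algebra K L) (z : L),
    z ^ 2 = algebraMap K L ((-1) ^ (r / 2) * ∏ i, w i) ∧ IntermediateField.adjoin K {z} = ⊤ ∧
    RuledField L

/-- In suitable linear coordinates (the components of the surjective linear map `l`) the quadratic
form `Q` is the sum of `s` hyperbolic planes `x_j y_j` and of a diagonal form `∑ w_i z_i²`, `w_i ≠ 0`,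
in `r` variables, where `r ≤ 4`, or `r ≤ 6` and `K` has positive characteristic. Moreover `r` is odd or
`RuledDisc K w` holds. -/
def SmallForm (K : Type) [Field K] {V : Type} [AddCommGroup V] [Module K V]
    (Q : QuadraticForm K V) : Prop :=
  ∃ (s r : ℕ) (w : Fin r → K) (l : V →ₗ[K] (Fin s → K) × (Fin s → K) × (Fin r → K)),
    Surjective l ∧ (∀ i, w i ≠ 0) ∧
    (∀ v, Q v = ∑ j, (l v).1 j * (l v).2.1 j + ∑ i, w i * (l v).2.2 i ^ 2) ∧
    (r ≤ 4 ∨ (r ≤ 6 ∧ ∃ p : ℕ, p.Prime ∧ (p : K) = 0)) ∧ (Odd r ∨ RuledDisc K w)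

/-- `(φ, x)` is a point of the projective space `ℙ^(r-1)` over `S` with residue field `K`: some
coordinate `x_l` is `1`, and every element of `K` is a quotient `a(x) / b(x)` of values of polynomials
`a`, `b` in `r` variables over `S`. -/
def IsPoint {S K : Type} [CommRing S] [Field K] {r : ℕ} (φ : S →+* K) (x : Fin r → K) : Prop :=
  (∃ l, x l = 1) ∧ ∀ z : K, ∃ a b : MvPolynomial (Fin r) S, eval₂ φ x b ≠ 0 ∧
    z * eval₂ φ x b = eval₂ φ x a

/-- The condition at a point with residue field `K` on the member `q` of the linear system: `K` has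
Kronecker dimension at most one, or `K` is a rational function field as in `RuledField`, `2 ≠ 0` in
`K`, and either the homogenised quadratic form `hform q` in `n + 1` variables is as in `SmallForm` or
its even Clifford algebra is as in `SplitAlgebra`. -/
def GoodMember (K : Type) [Field K] {n : ℕ} (q : MvPolynomial (Fin n) K) : Prop :=
  KroneckerLeOne K ∨ (RuledField K ∧ (2 : K) ≠ 0 ∧
    (SmallForm K (hform q) ∨ SplitAlgebra K (CliffordAlgebra.even (hform q))))

/-- In suitable linear coordinates (the components of the surjective linear map `l`) the homogenised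
quadratic form `hform q` of the polynomial `q` is a diagonal form `∑ w_i z_i²`, `w_i ≠ 0`, in an odd
number `m ≤ 7` of variables. -/
def OddMember (K : Type) [Field K] {n : ℕ} (q : MvPolynomial (Fin n) K) : Prop :=
  ∃ (m : ℕ) (w : Fin m → K) (l : (Fin (n + 1) → K) →ₗ[K] (Fin m → K)), Odd m ∧ m ≤ 7 ∧
    Surjective l ∧ (∀ i, w i ≠ 0) ∧ ∀ v, hform q v = ∑ i, w i * l v i ^ 2

/-- the general theorem, the first part of `result` -/
theorem general {S : Type} [CommRing S] [Algebra.FiniteType ℤ S] {r n : ℕ}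
    (f : Fin (r + 1) → MvPolynomial (Fin n) S) (hf : ∀ l, (f l).totalDegree ≤ 2)
    (h : ∀ (K : Type) [Field K] (φ : S →+* K) (x : Fin (r + 1) → K), IsPoint φ x →
      GoodMember K (∑ l, C (x l) * MvPolynomial.map φ (f l))) :
    AddGroup.FG (G0 (MvPolynomial (Fin n) S ⧸ Ideal.span (Set.range f))) := by
  open Pool.Agent.Q4 in
  have hNZ := thm_NZD thm_NZa
  have hRN := thm_RNQ hNZ thm_CON thm_LR
  have hPI := thm_PSIM (thm_PS2 thm_PS1 thm_LR) hNZ thm_CON thm_LR
  have hKEY := thm_KEY (thm_KR thm_SIMQ) thm_KB hRN (thm_PSA hPI hRN)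
  have hEVA := thm_EVA thm_RK1 thm_EV2 thm_EV3 thm_EV4 (thm_EV5 thm_QUIN) thm_EV6 thm_CS1
  exact ALL7 (Pool.Agent.QTB.thm_QORD4 hKEY thm_SLOT thm_SIMQ thm_BCQ hNZ) thm_RADM hEVA thm_CS1
    thm_GEX thm_ORL (thm_EVB thm_RADG thm_HYP thm_HYP0 thm_CM2 hEVA thm_CS1)
    Pool.Agent.TQF.thm_Tb f hf h

/-- members as in `OddMember` of three quadrics over a finite field satisfy `GoodMember` -/
theorem odd_good {S : Type} [CommRing S] {r n : ℕ} (f : Fin (r + 1) → MvPolynomial (Fin n) S)
    (K : Type) [Field K] (φ : S →+* K) (x : Fin (r + 1) → K) (hx : IsPoint φ x)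
    (hfin : Finite S) (hfield : IsField S) (hr : r = 2) (h2K : (2 : K) ≠ 0)
    (hK : ¬ KroneckerLeOne K)
    (hodd : OddMember K (∑ l, C (x l) * MvPolynomial.map φ (f l))) :
    GoodMember K (∑ l, C (x l) * MvPolynomial.map φ (f l)) := by
  subst hr
  let _ : Field S := hfield.toField
  obtain ⟨m, w, l, hm, hm7, hl, hw, hQ⟩ := hodd
  obtain ⟨s, m', w', l', hl', hw', hQ', hm6, hm'⟩ :=
    Pool.Agent.Q4.CW7_form φ h2K f x m hm hm7 w hw l hl hQ
  obtain ⟨⟨i, hi⟩, hgen⟩ := hx
  obtain ⟨p, hp⟩ := CharP.exists S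
  have hpp : p.Prime := CharP.char_is_prime S p
  have hpK : (p : K) = 0 := by
    have h3 := map_natCast φ p
    rw [CharP.cast_eq_zero, map_zero] at h3
    exact h3.symm
  exact Or.inr ⟨Pool.Agent.Q4.CW7_point φ x i hi hgen hK, h2K,
    Or.inl ⟨s, m', w', l', hl', hw', hQ', Or.inr ⟨hm6, p, hpp, hpK⟩, Or.inl hm'⟩⟩

/-- Let `S` be a finitely generated commutative ring and let `f_0, …, f_r ∈ S[y_1, …, y_n]` be
polynomials of degree at most two. Suppose that for every point `x` of the projective space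
`ℙ^r` over `S`, with residue field `K`, the member `∑ x_l f_l` of the linear system over `K` satisfies
`GoodMember`, or `S` is a finite field, `r = 2`, `2 ≠ 0` in `K` and the member satisfies `OddMember`.
Then `K'₀` of the ring `S[y_1, …, y_n] ⧸ (f_0, …, f_r)` is finitely generated. -/
theorem result {S : Type} [CommRing S] [Algebra.FiniteType ℤ S] {r n : ℕ}
    (f : Fin (r + 1) → MvPolynomial (Fin n) S) (hf : ∀ l, (f l).totalDegree ≤ 2)
    (h : ∀ (K : Type) [Field K] (φ : S →+* K) (x : Fin (r + 1) → K), IsPoint φ x →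
      GoodMember K (∑ l, C (x l) * MvPolynomial.map φ (f l)) ∨
      (Finite S ∧ IsField S ∧ r = 2 ∧ (2 : K) ≠ 0 ∧
        OddMember K (∑ l, C (x l) * MvPolynomial.map φ (f l)))) :
    AddGroup.FG (G0 (MvPolynomial (Fin n) S ⧸ Ideal.span (Set.range f))) := by
  refine general f hf fun K _ φ x hx => ?_
  rcases h K φ x hx with h1 | ⟨hfin, hfield, hr, h2K, hodd⟩
  · exact h1
  · by_cases hK : KroneckerLeOne K
    · exact Or.inl hK
    · exact odd_good f K φ x hx hfin hfield hr h2K hK hodd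

end Pool.Agent.Results.MP_e17fa799_al.QuadricBundles
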