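import Pool.Agent.KSF.All

/-!
# Finite generation of `K'_n(X)[1/(p N)]`, `n ≥ 0`, for schemes `X` dominated by supersingular schemes

`KX n X` (`Pool.Agent.KPR`) is Quillen's group `K'_n(X)`, `n ≥ 0`, of the category of coherent sheaves on
`X`: the homotopy group of degree `2 n + 3` of the simplicial group `F X_(n+3)`, where `X_k` is the
diagonal of the `k`-fold S-construction of Waldhausen and `F` the construction of Milnor (see
`Pool.Agent.KPR.Defs`). If `(p N) ^ e K'_n(X)` is contained in a finitely generated subgroup,
`K'_n(X)[1/(p N)]` is a finitely generated `ℤ[1/(p N)]`-module.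
-/

set_option autoImplicit false

namespace Pool.Agent.Results.MP_e17fa799_al.SupersingularK

open Pool.Agent.KTH

/-- `DomN p n`: let `X` be a noetherian scheme (of any dimension) and `f_j : Z_j → X` finitely many
finite flat morphisms, where `Z_j` is a source (`IsSourceN`): `Z_j` is open and closed in `Y_j × S_j`,
`S_j` is of finite type over `ℤ` and `Y_j` is a noetherian scheme over a field `k_j` with
`q_j ^ (2 t_j)` elements, `q_j = p ^ m_j`, `m_j, t_j ≥ 1`, which belongs to the class `SrcH` (it contains
the Fermat hypersurfaces `∑ x_i ^ (q + 1) = 0`, the schemes filtered by the affine schemes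
`y_i ^ q + y_i = ∑ a_ij x_j ^ (q + 1)`, and their products), or which is filtered by families of such
affine schemes over noetherian algebras `B` (`IsFamN`). If at every point of `X` the greatest common
divisor of the ranks of the `f_j` divides `N`, then `(p N) ^ e K'_n(X)` is contained in a finitely
generated subgroup for some `e`. The bases `Spec k_j × S_j` and, unless `Y_j` is even, `H_j × S_j`, `H_j`
the affine curve `y ^ q_j + y = x ^ (q_j + 1)` over `k_j` (in the case of families the bases over `B`),
are supposed to be of dimension at most one or to have a good `K'_n` (`BaseOk`). -/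
theorem result : ∀ p n : ℕ, DomN p n :=
  Pool.Agent.KSF.all_fin.1

end Pool.Agent.Results.MP_e17fa799_al.SupersingularK
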