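import Pool.Agent.BTF.FinB

/-!
# Bass's finiteness question: unirational schemes of dimension three, and birational invariance
-/

set_option autoImplicit false

namespace Pool.Agent.Results.MP_e17fa799_al.UnirationalThreefolds

open Pool.Agent.BTF
open Pool.Agent.KGT.W (SerreClass)

/-- `KX n X` is Quillen's group `K'_n(X)` of the scheme `X` (`π_{n+1}` of the Q-construction of the
category of coherent sheaves, here `π_{2n+3}` of a model by the iterated S-construction).
The Kronecker dimension of a field is its transcendence degree over the prime field, plus one in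
characteristic zero (`KrLe d K`: it is at most `d`). `SerreClass 𝒮`: `𝒮` is a class of abelian groups closed
under subgroups, quotients and extensions which contains `ℤ`. `Low 𝒮 d`: `𝒮` contains `K'_n(T)` for all `n`
and all `T` of finite type over `ℤ` whose residue fields have Kronecker dimension at most `d`, for
instance the class of finitely generated groups for `d = 1` (the second part of the theorem), or, for
every `d`, the smallest class with this property.

Let `𝒮`, `d` be as in `Low 𝒮 d`, `B` a separated scheme of finite type over `ℤ`, and `X` an integral regular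
scheme, proper over `B`, whose function field `K(X)` has Kronecker dimension at most `d + 2`.
1. (`BirMod`) If `Y` is integral, regular, proper over `B` and birational to `X` over `B`, then `K'_n(X)` and
  `K'_n(Y)` are isomorphic modulo `𝒮`, for all `n`.
2. (`RuledB`) If `K(X) = K(T)(t)` over `B`, `T` integral of finite type over `ℤ`, then `K'_n(X)` and
  `K'_n(T) ⊕ K'_n(T)` are isomorphic modulo `𝒮`, for all `n`.
3. (`DominatedB`) If `K(X)` is embedded over `B`, with finite degree `N`, into `K(Y)`, `Y` integral, regular,
  proper over `B`, or into `K(T)(t)`, `T` integral of finite type over `ℤ`, and `K'_n(Y)`, or `K'_n(T)`, is in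
  `𝒮`, then `N² K'_n(X)` is in `𝒮`.
4. (`UnirationalB`) If `g` is the greatest common divisor of a finite set of degrees of finite
  embeddings of `K(X)` over `B` into fields `M(t)`, where `M = L(s)` or `M` has Kronecker dimension at most `d`,
  then `g² K'_n(X)` is in `𝒮`, for all `n`; if `g = 1`, `K'_n(X)` is in `𝒮`.

For the finitely generated groups and `d = 1`: the groups `K'_n(X)` are finitely generated for all regular
schemes `X` which are proper over `ℤ` and have the function field `L(s, t)`, where `L` is a number field or
the function field of a curve over a finite field. -/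
theorem result :
    (∀ 𝒮 : (G : Type 1) → [AddCommGroup G] → Prop, SerreClass 𝒮 → ∀ d : ℕ, Low 𝒮 d →
      BirMod 𝒮 d ∧ RuledB 𝒮 d ∧ DominatedB 𝒮 d ∧ UnirationalB 𝒮 d) ∧
    SerreClass (fun G _ => AddGroup.FG G) ∧ Low (fun G _ => AddGroup.FG G) 1 :=
  ⟨fun 𝒮 h𝒮 d h => ⟨birMod 𝒮 h𝒮 d h, ruledB 𝒮 h𝒮 d h, dominatedB 𝒮 h𝒮 d h,
    unirationalB 𝒮 h𝒮 d h⟩, CO.serre_fg, lowFG⟩

end Pool.Agent.Results.MP_e17fa799_al.UnirationalThreefolds
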